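import Pool.Agent.H71.ASF.Stmts

/-!
# Project ASF (MP_8ae111_al), module CCH: chains of total degree zero vanish
-/

namespace ASF

universe u

namespace CCH

variable {A : Type u} [NonUnitalNonAssocRing A]

theorem KP_add {B : AddSubgroup A} {z w : A} (hz : KP B z) (hw : KP B w) : KP B (z + w) := by
  intro b hb d hd
  rw [mul_add, add_mul, hz b hb d hd, hw b hb d hd, add_zero]

theorem KP_zero {B : AddSubgroup A} : KP B (0 : A) := by
  intro b hb d hd
  rw [mul_zero, zero_mul]

/-- the general step for chains starting with `(b X) d`, `X` congruent to `x (c u)` -/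
theorem step2 [Alt A] (B : AddSubgroup A) (q : ℕ) (C : ZMod q → AddSubgroup A)
    (hK : ∀ b ∈ B, ∀ c ∈ B, ∀ x y : A,
      KP B (x * b) ∧ KP B (b * x) ∧ KP B (asc x y b) ∧ KP B (x * (y * b)) ∧ KP B ((b * x) * y) ∧
      (∀ d ∈ B, (((b * x) * c) * y) * d = (b * (x * (c * y))) * d) ∧
      (∀ d ∈ B, d * (y * ((b * x) * c)) = (d * ((y * b) * x)) * c) ∧
      (∀ z : A, KP B z → KP B (z * (b * x))) ∧
      (∀ a : A, ∀ d ∈ B, KP B ((x * (c * a)) * (d * y) - x * (c * (a * (d * y))))))
    (hC : ∀ i j, ∀ x ∈ C i, ∀ y ∈ C j, x * y ∈ C (i + j)) (hB : ∀ b ∈ B, b ∈ C 0)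
    (hI : ∀ a ∈ C 0, ∀ b ∈ B, a * b ∈ B ∧ b * a ∈ B) (x c : A) (hc : c ∈ B) :
    ∀ (l : List (A × A)) (n : List (ZMod q)), l.length = n.length →
    (∀ p ∈ l.zip n, p.1.1 ∈ C p.2 ∧ p.1.2 ∈ B) → ∀ (m : ZMod q) (u X : A), u ∈ C m →
    m + n.sum = 0 → KP B (X - x * (c * u)) → ∀ b ∈ B, ∀ d ∈ B, chn ((b * X) * d) l = 0
  | [], n, hl, _, m, u, X, hu, hs, hX, b, hb, d, hd => by
    have hn : n = [] := by
      cases n with
      | nil => rfl
      | cons a t => simp at hl
    subst hn
    have hm : m = 0 := by simpa using hs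
    subst hm
    have h1 : c * u ∈ B := (hI u hu c hc).2
    have h2 : KP B (x * (c * u)) := (hK _ h1 _ h1 x x).1
    have h3 : KP B X := by
      have := KP_add hX h2
      rwa [sub_add_cancel] at this
    exact h3 b hb d hd
  | (a, d') :: l, n, hl, hh, m, u, X, hu, hs, hX, b, hb, d, hd => by
    cases n with
    | nil => simp at hl
    | cons k n =>
      have hl' : l.length = n.length := by simpa using hl
      have h0 := hh ((a, d'), k) (by simp)
      have ha : a ∈ C k := h0.1
      have hd' : d' ∈ B := h0.2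
      have hh' : ∀ p ∈ l.zip n, p.1.1 ∈ C p.2 ∧ p.1.2 ∈ B := fun p hp => hh p (by simp [hp])
      have e : chn ((b * X) * d) ((a, d') :: l) = chn ((b * (X * (d * a))) * d') l := by
        change chn ((((b * X) * d) * a) * d') l = _
        rw [(hK b hb d hd X a).2.2.2.2.2.1 d' hd']
      rw [e]
      have hda : d * a ∈ C (0 + k) := hC _ _ d (hB d hd) a ha
      rw [zero_add] at hda
      refine step2 B q C hK hC hB hI x c hc l n hl' hh' (m + k) (u * (d * a)) (X * (d * a))
        (hC _ _ u hu _ hda) (by rw [← hs, List.sum_cons]; ring) ?_ b hb d' hd'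
      have e2 : X * (d * a) - x * (c * (u * (d * a))) =
          (X - x * (c * u)) * (d * a) + ((x * (c * u)) * (d * a) - x * (c * (u * (d * a)))) := by
        rw [sub_mul]; abel
      rw [e2]
      exact KP_add ((hK d hd c hc a a).2.2.2.2.2.2.2.1 _ hX)
        ((hK d hd c hc x a).2.2.2.2.2.2.2.2 u d hd)

theorem step1 [Alt A] (B : AddSubgroup A) (q : ℕ) (C : ZMod q → AddSubgroup A)
    (hN : Null B)
    (hK : ∀ b ∈ B, ∀ c ∈ B, ∀ x y : A,
      (∀ d ∈ B, (((b * x) * c) * y) * d = (b * (x * (c * y))) * d))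
    (hC : ∀ i j, ∀ x ∈ C i, ∀ y ∈ C j, x * y ∈ C (i + j)) (hB : ∀ b ∈ B, b ∈ C 0)
    (hI : ∀ a ∈ C 0, ∀ b ∈ B, a * b ∈ B ∧ b * a ∈ B) :
    ∀ (l : List (A × A)) (n : List (ZMod q)), l.length = n.length →
    (∀ p ∈ l.zip n, p.1.1 ∈ C p.2 ∧ p.1.2 ∈ B) → ∀ (m : ZMod q) (u : A), u ∈ C m →
    m + n.sum = 0 → ∀ b ∈ B, ∀ d ∈ B, chn ((b * u) * d) l = 0
  | [], n, hl, _, m, u, hu, hs, b, hb, d, hd => by
    have hn : n = [] := by
      cases n with
      | nil => rfl
      | cons a t => simp at hl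
    subst hn
    have hm : m = 0 := by simpa using hs
    subst hm
    exact hN _ (hI u hu b hb).2 d hd
  | (a, d') :: l, n, hl, hh, m, u, hu, hs, b, hb, d, hd => by
    cases n with
    | nil => simp at hl
    | cons k n =>
      have hl' : l.length = n.length := by simpa using hl
      have h0 := hh ((a, d'), k) (by simp)
      have ha : a ∈ C k := h0.1
      have hd' : d' ∈ B := h0.2
      have hh' : ∀ p ∈ l.zip n, p.1.1 ∈ C p.2 ∧ p.1.2 ∈ B := fun p hp => hh p (by simp [hp])
      have e : chn ((b * u) * d) ((a, d') :: l) = chn ((b * (u * (d * a))) * d') l := by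
        change chn ((((b * u) * d) * a) * d') l = _
        rw [hK b hb d hd u a d' hd']
      rw [e]
      have hda : d * a ∈ C (0 + k) := hC _ _ d (hB d hd) a ha
      rw [zero_add] at hda
      exact step1 B q C hN hK hC hB hI l n hl' hh' (m + k) (u * (d * a))
        (hC _ _ u hu _ hda) (by rw [← hs, List.sum_cons]; ring) b hb d' hd'

end CCH

open CCH in
theorem cch (_h1 : CRUStmt.{u}) (h2 : CKPStmt.{u}) : CCHStmt.{u} := by
  intro A _ _ B q C hV hC hB hI l n hne hl hh hs
  have hK := h2 A B hV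
  have hK6 : ∀ b ∈ B, ∀ c ∈ B, ∀ x y : A,
      (∀ d ∈ B, (((b * x) * c) * y) * d = (b * (x * (c * y))) * d) :=
    fun b hb c hc x y => (hK b hb c hc x y).2.2.2.2.2.1
  cases l with
  | nil => exact absurd rfl hne
  | cons p l =>
    obtain ⟨a, d'⟩ := p
    cases n with
    | nil => simp at hl
    | cons k n =>
      have hl' : l.length = n.length := by simpa using hl
      have h0 := hh ((a, d'), k) (by simp)
      have ha : a ∈ C k := h0.1
      have hd' : d' ∈ B := h0.2
      have hh' : ∀ p ∈ l.zip n, p.1.1 ∈ C p.2 ∧ p.1.2 ∈ B := fun p hp => hh p (by simp [hp])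
      have hs' : k + n.sum = 0 := by rw [← hs, List.sum_cons]
      refine ⟨fun b hb => ?_, fun b hb c hc x => ?_⟩
      · exact step1 B q C hV.n hK6 hC hB hI l n hl' hh' k a ha hs' b hb d' hd'
      · change chn ((((b * x) * c) * a) * d') l = 0
        rw [hK6 b hb c hc x a d' hd']
        refine step2 B q C hK hC hB hI x c hc l n hl' hh' k a (x * (c * a)) ha hs' ?_ b hb d' hd'
        rw [sub_self]
        exact KP_zero

end ASF
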