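import Pool.Agent.H71.ASF.StmtsM

/-!
# Project ASF (MP_8ae111_al), module CPI: `WW B q = 0` when `V = 0`
-/

namespace ASF

universe u

namespace CPI

variable {A : Type u} [NonUnitalNonAssocRing A]

theorem chn_append (w : A) (l l' : List (A × A)) : chn w (l ++ l') = chn (chn w l) l' := by
  induction l generalizing w with
  | nil => rfl
  | cons p l ih => obtain ⟨a, d⟩ := p; exact ih _

theorem chn_zero (l : List (A × A)) : chn (0 : A) l = 0 := by
  induction l with
  | nil => rfl
  | cons p l ih => obtain ⟨a, d⟩ := p; change chn ((0 * a) * d) l = 0; rw [zero_mul, zero_mul, ih]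

/-- chains starting with `(b X) c` are again of this form -/
theorem form2 (B : AddSubgroup A)
    (hK : ∀ b ∈ B, ∀ c ∈ B, ∀ x y : A,
      (∀ d ∈ B, (((b * x) * c) * y) * d = (b * (x * (c * y))) * d)) :
    ∀ (l : List (A × A)), (∀ p ∈ l, p.2 ∈ B) → ∀ b ∈ B, ∀ c ∈ B, ∀ x : A,
      ∃ c' ∈ B, ∃ x' : A, chn ((b * x) * c) l = (b * x') * c'
  | [], _, b, _, c, hc, x => ⟨c, hc, x, rfl⟩
  | (a, d) :: l, hl, b, hb, c, hc, x => by
    have hd : d ∈ B := hl (a, d) (by simp)
    obtain ⟨c', hc', x', h⟩ := form2 B hK l (fun p hp => hl p (by simp [hp])) b hb d hd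
      (x * (c * a))
    refine ⟨c', hc', x', ?_⟩
    change chn ((((b * x) * c) * a) * d) l = _
    rw [hK b hb c hc x a d hd, h]

theorem form1 (B : AddSubgroup A)
    (hK : ∀ b ∈ B, ∀ c ∈ B, ∀ x y : A,
      (∀ d ∈ B, (((b * x) * c) * y) * d = (b * (x * (c * y))) * d))
    (l : List (A × A)) (hl : ∀ p ∈ l, p.2 ∈ B) (b : A) (hb : b ∈ B) :
    chn b l ∈ B ∨ ∃ c' ∈ B, ∃ x' : A, chn b l = (b * x') * c' := by
  cases l with
  | nil => exact Or.inl hb
  | cons p l =>
    obtain ⟨a, d⟩ := p
    exact Or.inr (form2 B hK l (fun p hp => hl p (by simp [hp])) b hb d (hl (a, d) (by simp)) a)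

/-- homogeneous chains of length `q` vanish -/
theorem chain_zero [Alt A] (h2 : CKPStmt.{u}) (h3 : CCHStmt.{u}) (B : AddSubgroup A)
    (q : ℕ) [NeZero q] (C : ZMod q → AddSubgroup A) (hV : VZ B)
    (hC : ∀ i j, ∀ x ∈ C i, ∀ y ∈ C j, x * y ∈ C (i + j)) (hB : ∀ b ∈ B, b ∈ C 0)
    (hI : ∀ a ∈ C 0, ∀ b ∈ B, a * b ∈ B ∧ b * a ∈ B)
    (l : List (A × A)) (n : List (ZMod q)) (hl : l.length = q) (hn : n.length = q)
    (hh : ∀ p ∈ l.zip n, p.1.1 ∈ C p.2 ∧ p.1.2 ∈ B) (b : A) (hb : b ∈ B) : chn b l = 0 := by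
  have hK6 : ∀ b ∈ B, ∀ c ∈ B, ∀ x y : A,
      (∀ d ∈ B, (((b * x) * c) * y) * d = (b * (x * (c * y))) * d) :=
    fun b hb c hc x y => (h2 A B hV b hb c hc x y).2.2.2.2.2.1
  -- pigeonhole
  obtain ⟨i, j, hij, hjq, hs⟩ : ∃ i j : ℕ, i < j ∧ j ≤ q ∧ (n.take i).sum = (n.take j).sum := by
    let f : Fin (q + 1) → ZMod q := fun i => (n.take i.1).sum
    have hcard : Fintype.card (ZMod q) < Fintype.card (Fin (q + 1)) := by
      rw [ZMod.card, Fintype.card_fin]; omega
    obtain ⟨i, j, hne, he⟩ := Fintype.exists_ne_map_eq_of_card_lt f hcard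
    rcases lt_or_gt_of_ne hne with h | h
    · exact ⟨i.1, j.1, h, by omega, he⟩
    · exact ⟨j.1, i.1, h, by omega, he.symm⟩
  have e1 : l = l.take i ++ ((l.drop i).take (j - i) ++ l.drop j) := by
    have h1 : (l.drop i).take (j - i) ++ l.drop j = l.drop i := by
      have : l.drop j = (l.drop i).drop (j - i) := by
        rw [List.drop_drop]; congr 1; omega
      rw [this, List.take_append_drop]
    rw [h1, List.take_append_drop]
  have en : n.take j = n.take i ++ (n.drop i).take (j - i) := by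
    have h1 : j = i + (j - i) := by omega
    conv_lhs => rw [h1]
    rw [List.take_add]
  have hsum : ((n.drop i).take (j - i)).sum = 0 := by
    rw [en, List.sum_append] at hs
    exact (left_eq_add.mp hs)
  have hlen : ((l.drop i).take (j - i)).length = ((n.drop i).take (j - i)).length := by
    simp [hl, hn]
  have hne : (l.drop i).take (j - i) ≠ [] := by
    intro h
    have := congrArg List.length h
    simp [hl] at this
    omega
  have hhm : ∀ p ∈ ((l.drop i).take (j - i)).zip ((n.drop i).take (j - i)),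
      p.1.1 ∈ C p.2 ∧ p.1.2 ∈ B := by
    intro p hp
    refine hh p ?_
    have hz : ((l.drop i).take (j - i)).zip ((n.drop i).take (j - i)) =
        ((l.zip n).drop i).take (j - i) := by
      rw [List.zip_eq_zipWith, List.zip_eq_zipWith, List.drop_zipWith, List.take_zipWith]
    rw [hz] at hp
    exact List.mem_of_mem_drop (List.mem_of_mem_take hp)
  have hB2 : ∀ p ∈ l, p.2 ∈ B := by
    intro p hp
    obtain ⟨k, hk, rfl⟩ := List.getElem_of_mem hp
    have hk' : k < n.length := by rw [hn, ← hl]; exact hk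
    have hmem : (l[k], n[k]) ∈ l.zip n := by
      have hkz : k < (l.zip n).length := by simp [List.length_zip]; omega
      have : (l.zip n)[k] = (l[k], n[k]) := by simp
      rw [← this]
      exact List.getElem_mem hkz
    exact (hh _ hmem).2
  have hc := h3 A B q C hV hC hB hI _ _ hne hlen hhm hsum
  rw [e1, chn_append, chn_append]
  have hz : chn (chn b (l.take i)) ((l.drop i).take (j - i)) = 0 := by
    rcases form1 B hK6 (l.take i) (fun p hp => hB2 p (List.mem_of_mem_take hp)) b hb with h | h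
    · exact hc.1 _ h
    · obtain ⟨c', hc', x', h⟩ := h
      rw [h]
      exact hc.2 b hb c' hc' x'
  rw [hz, chn_zero]

section span

variable {R : Type} [CommRing R] [Module R A] [IsScalarTower R A A] [SMulCommClass R A A]

/-- homogeneous chains of length `k` -/
def HC (q : ℕ) (𝒜 : ZMod q → Submodule R A) (B : Submodule R A) (k : ℕ) : Set A :=
  {z | ∃ b ∈ B, ∃ (l : List (A × A)) (n : List (ZMod q)), l.length = k ∧ n.length = k ∧
    (∀ p ∈ l.zip n, p.1.1 ∈ 𝒜 p.2 ∧ p.1.2 ∈ B) ∧ z = chn b l}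

theorem WW_le (q : ℕ) (𝒜 : ZMod q → Submodule R A) (B : Submodule R A) (hs : ⨆ i, 𝒜 i = ⊤) :
    ∀ k, WW B k ≤ Submodule.span R (HC q 𝒜 B k)
  | 0 => by
    intro b hb
    exact Submodule.subset_span ⟨b, hb, [], [], rfl, rfl, by simp, rfl⟩
  | k + 1 => by
    have ih := WW_le q 𝒜 B hs k
    refine Submodule.span_le.mpr ?_
    rintro z ⟨w, hw, a, d, hd, rfl⟩
    change (w * a) * d ∈ Submodule.span R (HC q 𝒜 B (k + 1))
    have hw' := ih hw
    clear hw
    have ha : a ∈ ⨆ i, 𝒜 i := by rw [hs]; trivial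
    induction hw' using Submodule.span_induction with
    | mem w hw =>
      obtain ⟨b, hb, l, n, hl, hn, hh, rfl⟩ := hw
      induction ha using Submodule.iSup_induction' with
      | mem i a ha =>
        refine Submodule.subset_span ⟨b, hb, l ++ [(a, d)], n ++ [i], by simp [hl], by simp [hn],
          ?_, ?_⟩
        · intro p hp
          rw [List.zip_append (by rw [hl, hn])] at hp
          rcases List.mem_append.mp hp with hp | hp
          · exact hh p hp
          · simp only [List.zip_cons_cons, List.zip_nil_left, List.mem_singleton] at hp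
            subst hp
            exact ⟨ha, hd⟩
        · rw [chn_append]; rfl
      | zero => rw [mul_zero, zero_mul]; exact Submodule.zero_mem _
      | add x y _ _ hx hy => rw [mul_add, add_mul]; exact Submodule.add_mem _ hx hy
    | zero => rw [zero_mul, zero_mul]; exact Submodule.zero_mem _
    | add x y _ _ hx hy => rw [add_mul, add_mul]; exact Submodule.add_mem _ hx hy
    | smul r x _ hx =>
      rw [smul_mul_assoc, smul_mul_assoc]; exact Submodule.smul_mem _ _ hx

end span

end CPI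

open CPI in
theorem cpi (_h1 : CRUStmt.{u}) (h2 : CKPStmt.{u}) (h3 : CCHStmt.{u}) : CPIStmt.{u} := by
  intro R _ A _ _ _ _ _ q _ 𝒜 B hG hV
  rw [eq_bot_iff]
  refine (WW_le q 𝒜 B hG.grd.sup q).trans (Submodule.span_le.mpr ?_)
  rintro z ⟨b, hb, l, n, hl, hn, hh, rfl⟩
  refine chain_zero h2 h3 B.toAddSubgroup q (fun i => (𝒜 i).toAddSubgroup)
    ⟨hG.null, fun b hb c hc x => hV b hb c hc x⟩ (fun i j x hx y hy => hG.grd.mul i j x hx y hy)
    (fun b hb => hG.le hb) (fun a ha b hb => hG.idl a ha b hb) l n hl hn hh b hb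

end ASF
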